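import Mathlib

/-!
`MP_30a0a7_nt`: the gcd-recursion `a_n = a_(n-1) - gcd(a_(n-1), N - (-1)^n (N - n))` and the sums
`S(n)`; a lower bound for `S(n)`.
-/

set_option autoImplicit false

namespace Pool.Agent.GRI

/-- the sequence of the problem: `a N 1 = N - 2`,
`a N n = a N (n-1) - gcd(a N (n-1), N - (-1)^n (N - n))` for `n ≥ 2` (the value at `0` is not used) -/
def a (N : ℕ) : ℕ → ℤ
  | 0 => (N : ℤ) - 2
  | 1 => (N : ℤ) - 2
  | n + 2 => a N (n + 1) -
      Int.gcd (a N (n + 1)) ((N : ℤ) - (-1) ^ (n + 2) * ((N : ℤ) - ((n + 2 : ℕ) : ℤ)))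

/-- the least index `n ≥ 2` with `a N n = 0` -/
noncomputable def g (N : ℕ) : ℕ := sInf {n : ℕ | 2 ≤ n ∧ a N n = 0}

/-- `S(n)`, the sum of `1 - g_k / (k - 1)` over `3 ≤ k ≤ n` -/
noncomputable def S (n : ℕ) : ℝ := ∑ k ∈ Finset.Icc 3 n, (1 - (g k : ℝ) / ((k : ℝ) - 1))

theorem a_succ (N n : ℕ) (hn : 1 ≤ n) : a N (n + 1) = a N n -
    Int.gcd (a N n) ((N : ℤ) - (-1) ^ (n + 1) * ((N : ℤ) - ((n + 1 : ℕ) : ℤ))) := by
  obtain ⟨m, rfl⟩ : ∃ m, n = m + 1 := ⟨n - 1, by omega⟩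
  rfl

/-- while positive, the sequence decreases, and it reaches `0` -/
theorem descend (N : ℕ) (B : ℕ) : ∀ m : ℕ, 1 ≤ m → 0 ≤ a N m → a N m ≤ B →
    ∃ n, m ≤ n ∧ n ≤ m + B ∧ a N n = 0 := by
  induction B with
  | zero =>
    intro m _ h0 h1
    exact ⟨m, le_rfl, by omega, le_antisymm (by simpa using h1) h0⟩
  | succ B ih =>
    intro m hm h0 h1
    rcases h0.eq_or_lt with h2 | h2
    · exact ⟨m, le_rfl, by omega, h2.symm⟩
    · have h3 := a_succ N m hm
      set y := (N : ℤ) - (-1) ^ (m + 1) * ((N : ℤ) - ((m + 1 : ℕ) : ℤ)) with hy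
      have h4 : (Int.gcd (a N m) y : ℤ) ∣ a N m := Int.gcd_dvd_left _ _
      have h5 := Int.le_of_dvd h2 h4
      have h6 : 0 < Int.gcd (a N m) y := Int.gcd_pos_of_ne_zero_left _ h2.ne'
      have h7 : (1 : ℤ) ≤ Int.gcd (a N m) y := by exact_mod_cast h6
      obtain ⟨n, hn1, hn2, hn3⟩ := ih (m + 1) (by omega) (by omega) (by push_cast at h1; omega)
      exact ⟨n, by omega, by omega, hn3⟩

theorem g_le_of (N n : ℕ) (h2 : 2 ≤ n) (h : a N n = 0) : g N ≤ n :=
  Nat.sInf_le ⟨h2, h⟩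

theorem g_le (N : ℕ) (hN : 3 ≤ N) : g N ≤ N - 1 := by
  have h1 : a N 1 = (N : ℤ) - 2 := rfl
  obtain ⟨n, hn1, hn2, hn3⟩ := descend N (N - 2) 1 le_rfl (by rw [h1]; omega)
    (by rw [h1]; omega)
  refine (g_le_of N n ?_ hn3).trans (by omega)
  by_contra hc
  have : n = 1 := by omega
  rw [this, h1] at hn3
  omega

theorem gcd_congr {x y x' y' : ℤ} (h : ∀ d : ℤ, (d ∣ x ∧ d ∣ y) ↔ (d ∣ x' ∧ d ∣ y')) :
    Int.gcd x y = Int.gcd x' y' := by
  apply Nat.dvd_antisymm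
  · have h1 := (h (Int.gcd x y : ℤ)).1 ⟨Int.gcd_dvd_left _ _, Int.gcd_dvd_right _ _⟩
    exact_mod_cast Int.dvd_coe_gcd h1.1 h1.2
  · have h1 := (h (Int.gcd x' y' : ℤ)).2 ⟨Int.gcd_dvd_left _ _, Int.gcd_dvd_right _ _⟩
    exact_mod_cast Int.dvd_coe_gcd h1.1 h1.2

theorem gcd_step (N m : ℕ) : Int.gcd ((N : ℤ) - m) ((N : ℤ) - (-1) ^ m * ((N : ℤ) - m))
    = Nat.gcd m N := by
  rw [← Int.gcd_natCast_natCast]
  apply gcd_congr
  intro d
  rcases Nat.even_or_odd m with h | h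
  · rw [h.neg_one_pow, one_mul, sub_sub_cancel]
    constructor
    · rintro ⟨h1, h2⟩
      exact ⟨h2, by have := dvd_add h1 h2; rwa [sub_add_cancel] at this⟩
    · rintro ⟨h1, h2⟩
      exact ⟨dvd_sub h2 h1, h1⟩
  · rw [h.neg_one_pow]
    constructor
    · rintro ⟨h1, h2⟩
      have h3 : d ∣ (N : ℤ) := by
        have := dvd_sub h2 h1
        have e : (N : ℤ) - -1 * ((N : ℤ) - m) - ((N : ℤ) - m) = N := by ring
        rwa [e] at this
      refine ⟨?_, h3⟩
      have := dvd_sub h3 h1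
      rwa [sub_sub_cancel] at this
    · rintro ⟨h1, h2⟩
      refine ⟨dvd_sub h2 h1, ?_⟩
      have e : (N : ℤ) - -1 * ((N : ℤ) - m) = N + (N - m) := by ring
      rw [e]
      exact dvd_add h2 (dvd_sub h2 h1)

/-- before the first common factor -/
theorem a_eq (N p : ℕ) (hp : ∀ m, 2 ≤ m → m < p → Nat.gcd m N = 1) :
    ∀ m, 1 ≤ m → m < p → a N m = (N : ℤ) - 1 - m := by
  intro m
  induction m with
  | zero => intro h; omega
  | succ m ih =>
    intro _ hm
    rcases Nat.eq_zero_or_pos m with rfl | h0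
    · show (N : ℤ) - 2 = _
      push_cast; ring
    · rw [a_succ N m h0, ih h0 (by omega)]
      have e : (N : ℤ) - 1 - m = (N : ℤ) - ((m + 1 : ℕ) : ℤ) := by push_cast; ring
      rw [e, gcd_step, hp (m + 1) (by omega) hm]
      push_cast; ring

/-- `k` composite with least prime factor `p`: `g k ≤ k - p` -/
theorem g_le_sub (k p : ℕ) (hp2 : 2 ≤ p) (hpk : p ∣ k) (h2 : 2 * p ≤ k)
    (hp : ∀ m, 2 ≤ m → m < p → Nat.gcd m k = 1) : g k ≤ k - p := by
  obtain ⟨m, rfl⟩ : ∃ m, p = m + 1 := ⟨p - 1, by omega⟩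
  have h1 : a k (m + 1) = (k : ℤ) - 2 * ((m + 1 : ℕ) : ℤ) := by
    rw [a_succ k m (by omega), a_eq k (m + 1) hp m (by omega) (by omega)]
    have e : (k : ℤ) - 1 - m = (k : ℤ) - ((m + 1 : ℕ) : ℤ) := by push_cast; ring
    rw [e, gcd_step, Nat.gcd_eq_left hpk]
    ring
  obtain ⟨n, hn1, hn2, hn3⟩ := descend k (k - 2 * (m + 1)) (m + 1) (by omega)
    (by rw [h1]; omega) (by rw [h1]; omega)
  exact (g_le_of k n (by omega) hn3).trans (by omega)

theorem term_nonneg (k : ℕ) (hk : 3 ≤ k) : 0 ≤ 1 - (g k : ℝ) / ((k : ℝ) - 1) := by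
  have h1 : (3 : ℝ) ≤ k := by exact_mod_cast hk
  have h2 : (g k : ℝ) ≤ (k : ℝ) - 1 := by
    have := g_le k hk
    have h3 : (g k : ℝ) ≤ ((k - 1 : ℕ) : ℝ) := by exact_mod_cast this
    rwa [Nat.cast_sub (by omega), Nat.cast_one] at h3
  rw [sub_nonneg, div_le_one (by linarith)]
  exact h2

theorem term_ge (p q : ℕ) (hp : p.Prime) (hq : q.Prime) (hpq : p < q) :
    1 / (2 * (q : ℝ)) ≤ 1 - (g (p * q) : ℝ) / (((p * q : ℕ) : ℝ) - 1) := by
  have hp2 := hp.two_le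
  have h1 : g (p * q) ≤ p * q - p := by
    apply g_le_sub (p * q) p hp2 (dvd_mul_right _ _)
    · rw [mul_comm]
      exact Nat.mul_le_mul_left p (by omega)
    · intro m hm hmp
      apply Nat.Coprime.mul_right
      · exact Nat.Coprime.symm ((Nat.Prime.coprime_iff_not_dvd hp).2
          (fun h => absurd (Nat.le_of_dvd (by omega) h) (by omega)))
      · exact Nat.Coprime.symm ((Nat.Prime.coprime_iff_not_dvd hq).2
          (fun h => absurd (Nat.le_of_dvd (by omega) h) (by omega)))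
  have hp' : (2 : ℝ) ≤ p := by exact_mod_cast hp2
  have hq' : (2 : ℝ) ≤ q := by exact_mod_cast hq.two_le
  have h2 : (g (p * q) : ℝ) ≤ (p : ℝ) * q - p := by
    have h3 : (g (p * q) : ℝ) ≤ ((p * q - p : ℕ) : ℝ) := by exact_mod_cast h1
    rw [Nat.cast_sub (Nat.le_mul_of_pos_right p hq.pos), Nat.cast_mul] at h3
    exact h3
  rw [Nat.cast_mul]
  have h4 : (0 : ℝ) < (p : ℝ) * q - 1 := by nlinarith
  have h5 : (g (p * q) : ℝ) / ((p : ℝ) * q - 1) ≤ ((p : ℝ) * q - p) / ((p : ℝ) * q - 1) :=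
    div_le_div_of_nonneg_right h2 h4.le
  have h6 : 1 - ((p : ℝ) * q - p) / ((p : ℝ) * q - 1) = ((p : ℝ) - 1) / ((p : ℝ) * q - 1) := by
    field_simp
    ring
  have h7 : 1 / (2 * (q : ℝ)) ≤ ((p : ℝ) - 1) / ((p : ℝ) * q - 1) := by
    rw [div_le_div_iff₀ (by positivity) h4]
    nlinarith
  linarith

/-- the pairs of primes `p < q ≤ M` -/
def prs (M : ℕ) : Finset (ℕ × ℕ) :=
  ((Nat.primesLE M) ×ˢ (Nat.primesLE M)).filter fun x => x.1 < x.2

theorem card_prs (M : ℕ) : 2 * (prs M).card = M.primeCounting * M.primeCounting -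
    M.primeCounting := by
  have hc : (Nat.primesLE M).card = M.primeCounting := Nat.primesLE_card_eq_primeCounting M
  have h1 : (Nat.primesLE M).offDiag.card =
      (prs M).card + ((Nat.primesLE M).offDiag.filter fun x => ¬ x.1 < x.2).card := by
    rw [← Finset.card_filter_add_card_filter_not (s := (Nat.primesLE M).offDiag)
      (fun x => x.1 < x.2)]
    congr 2
    ext x
    simp only [prs, Finset.mem_filter, Finset.mem_offDiag, Finset.mem_product]
    constructor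
    · rintro ⟨⟨h1, h2, _⟩, h4⟩; exact ⟨⟨h1, h2⟩, h4⟩
    · rintro ⟨⟨h1, h2⟩, h4⟩; exact ⟨⟨h1, h2, h4.ne⟩, h4⟩
  have h2 : ((Nat.primesLE M).offDiag.filter fun x => ¬ x.1 < x.2).card = (prs M).card := by
    refine Finset.card_bij' (fun x _ => (x.2, x.1)) (fun x _ => (x.2, x.1)) ?_ ?_
      (fun x _ => rfl) (fun x _ => rfl)
    · intro x hx
      simp only [prs, Finset.mem_filter, Finset.mem_offDiag, Finset.mem_product] at hx ⊢
      exact ⟨⟨hx.1.2.1, hx.1.1⟩, lt_of_le_of_ne (not_lt.1 hx.2) (Ne.symm hx.1.2.2)⟩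
    · intro x hx
      simp only [prs, Finset.mem_filter, Finset.mem_offDiag, Finset.mem_product] at hx ⊢
      exact ⟨⟨hx.1.2, hx.1.1, hx.2.ne'⟩, not_lt.2 hx.2.le⟩
  rw [Finset.offDiag_card, hc] at h1
  omega

theorem S_ge (n : ℕ) : ((prs (Nat.sqrt n)).card : ℝ) / (2 * (Nat.sqrt n : ℝ)) ≤ S n := by
  classical
  set M := Nat.sqrt n with hM
  have hinj : Set.InjOn (fun x : ℕ × ℕ => x.1 * x.2) (prs M) := by
    intro x hx y hy hxy
    simp only [prs, Finset.coe_filter, Finset.mem_product, Nat.mem_primesLE,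
      Set.mem_ofPred_eq] at hx hy hxy
    obtain ⟨⟨⟨_, hx1⟩, ⟨_, hx2⟩⟩, hx3⟩ := hx
    obtain ⟨⟨⟨_, hy1⟩, ⟨_, hy2⟩⟩, hy3⟩ := hy
    have h1 : x.1 ∣ y.1 * y.2 := hxy ▸ dvd_mul_right _ _
    rcases (Nat.Prime.dvd_mul hx1).1 h1 with h | h
    · have h2 := (Nat.prime_dvd_prime_iff_eq hx1 hy1).1 h
      rw [h2] at hxy
      exact Prod.ext h2 (Nat.eq_of_mul_eq_mul_left hy1.pos hxy)
    · have h2 := (Nat.prime_dvd_prime_iff_eq hx1 hy2).1 h
      rw [h2, mul_comm] at hxy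
      have h3 := Nat.eq_of_mul_eq_mul_right hy2.pos hxy
      omega
  have hsub : (prs M).image (fun x : ℕ × ℕ => x.1 * x.2) ⊆ Finset.Icc 3 n := by
    intro k hk
    obtain ⟨x, hx, rfl⟩ := Finset.mem_image.1 hk
    simp only [prs, Finset.mem_filter, Finset.mem_product, Nat.mem_primesLE] at hx
    obtain ⟨⟨⟨hx0, hx1⟩, ⟨hx0', hx2⟩⟩, hx3⟩ := hx
    rw [Finset.mem_Icc]
    constructor
    · have := hx1.two_le; nlinarith
    · exact (Nat.mul_le_mul hx0 hx0').trans (Nat.sqrt_le n)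
  have h1 : ∑ k ∈ (prs M).image (fun x : ℕ × ℕ => x.1 * x.2),
      (1 - (g k : ℝ) / ((k : ℝ) - 1)) ≤ S n :=
    Finset.sum_le_sum_of_subset_of_nonneg hsub fun k hk _ =>
      term_nonneg k (Finset.mem_Icc.1 hk).1
  rw [Finset.sum_image hinj] at h1
  refine le_trans ?_ h1
  have h2 : ∑ _x ∈ prs M, 1 / (2 * (M : ℝ)) ≤
      ∑ x ∈ prs M, (1 - (g (x.1 * x.2) : ℝ) / (((x.1 * x.2 : ℕ) : ℝ) - 1)) := by
    apply Finset.sum_le_sum
    intro x hx
    simp only [prs, Finset.mem_filter, Finset.mem_product, Nat.mem_primesLE] at hx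
    obtain ⟨⟨⟨hx0, hx1⟩, ⟨hx0', hx2⟩⟩, hx3⟩ := hx
    refine le_trans ?_ (term_ge x.1 x.2 hx1 hx2 hx3)
    have h3 : (0 : ℝ) < x.2 := by exact_mod_cast hx2.pos
    have h4 : (x.2 : ℝ) ≤ M := by exact_mod_cast hx0'
    apply one_div_le_one_div_of_le (by positivity)
    linarith
  rw [Finset.sum_const, nsmul_eq_mul, mul_one_div] at h2
  exact h2

/-- **lower bound**: `S(n) ≥ √n / (16 (log n)^2)` for `n ≥ 225` -/
theorem lower (n : ℕ) (hn : 225 ≤ n) : √(n : ℝ) / (16 * Real.log n ^ 2) ≤ S n := by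
  refine le_trans ?_ (S_ge n)
  set M := Nat.sqrt n with hM
  have hM15 : 15 ≤ M := by
    rw [hM, Nat.le_sqrt]; omega
  have hMr : (15 : ℝ) ≤ M := by exact_mod_cast hM15
  have hlog2 := Real.log_two_gt_d9
  have hlog2' := Real.log_two_lt_d9
  have hlogM : 0 < Real.log M := Real.log_pos (by linarith)
  have h1 : Real.log ((M : ℝ) + 1) ≤ ((M : ℝ) + 1) / 16 - 1 + 4 * Real.log 2 := by
    have h2 := Real.log_le_sub_one_of_pos (show (0 : ℝ) < ((M : ℝ) + 1) / 16 by positivity)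
    rw [Real.log_div (by positivity) (by norm_num)] at h2
    have h3 : Real.log 16 = 4 * Real.log 2 := by
      rw [show (16 : ℝ) = 2 ^ 4 by norm_num, Real.log_pow]; norm_num
    linarith
  have hpi : (M : ℝ) / (2 * Real.log M) ≤ (M.primeCounting : ℝ) := by
    refine le_trans ?_ (Chebyshev.pi_ge M)
    rw [div_le_div_iff₀ (by positivity) hlogM]
    have h2 : (M : ℝ) / 2 ≤ M * Real.log 2 - Real.log ((M : ℝ) + 1) := by nlinarith
    nlinarith
  have hMlog : Real.log M ≤ (M : ℝ) / 4 := by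
    have h2 := Real.log_le_sub_one_of_pos (show (0 : ℝ) < (M : ℝ) / 8 by positivity)
    rw [Real.log_div (by positivity) (by norm_num)] at h2
    have h3 : Real.log 8 = 3 * Real.log 2 := by
      rw [show (8 : ℝ) = 2 ^ 3 by norm_num, Real.log_pow]; norm_num
    linarith
  have hpi2 : (2 : ℝ) ≤ M.primeCounting := by
    refine le_trans ?_ hpi
    rw [le_div_iff₀ (by positivity)]
    linarith
  have hcard : ((M.primeCounting : ℝ) ^ 2) / 4 ≤ ((prs M).card : ℝ) := by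
    have h2 := card_prs M
    have h3 : 2 * ((prs M).card : ℝ) = (M.primeCounting : ℝ) * M.primeCounting -
        M.primeCounting := by
      have h4 : M.primeCounting ≤ M.primeCounting * M.primeCounting := Nat.le_mul_self _
      have h5 : ((2 * (prs M).card : ℕ) : ℝ) =
          ((M.primeCounting * M.primeCounting - M.primeCounting : ℕ) : ℝ) := by rw [h2]
      rw [Nat.cast_sub h4] at h5
      push_cast at h5
      exact h5
    nlinarith
  have hn0 : (0 : ℝ) < n := by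
    have : 0 < n := by omega
    exact_mod_cast this
  have hsq : √(n : ℝ) ≤ 2 * M := by
    rw [Real.sqrt_le_left (by positivity)]
    have h2 : n < (M + 1) * (M + 1) := Nat.lt_succ_sqrt n
    have h3 : (n : ℝ) < ((M : ℝ) + 1) * (M + 1) := by exact_mod_cast h2
    nlinarith
  have hln : 2 * Real.log M ≤ Real.log n := by
    have h2 : M * M ≤ n := Nat.sqrt_le n
    have h3 : (M : ℝ) ^ 2 ≤ n := by
      rw [sq]; exact_mod_cast h2
    have h4 := Real.log_le_log (by positivity) h3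
    rwa [Real.log_pow, Nat.cast_ofNat] at h4
  have hM0 : (0 : ℝ) < M := by linarith
  have e1 : (M : ℝ) ^ 2 / (4 * Real.log M ^ 2) ≤ (M.primeCounting : ℝ) ^ 2 := by
    have h2 := pow_le_pow_left₀ (by positivity) hpi 2
    rw [div_pow] at h2
    refine le_trans (le_of_eq ?_) h2
    ring
  calc √(n : ℝ) / (16 * Real.log n ^ 2) ≤ (2 * M) / (16 * (2 * Real.log M) ^ 2) := by
        apply div_le_div₀ (by positivity) hsq (by positivity)
        have := pow_le_pow_left₀ (by positivity) hln 2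
        linarith
    _ = ((M : ℝ) ^ 2 / (4 * Real.log M ^ 2)) / 4 / (2 * M) := by
        field_simp
        ring
    _ ≤ ((M.primeCounting : ℝ) ^ 2) / 4 / (2 * M) := by
        apply div_le_div_of_nonneg_right _ (by positivity)
        linarith
    _ ≤ ((prs M).card : ℝ) / (2 * (M : ℝ)) := div_le_div_of_nonneg_right hcard (by positivity)

end Pool.Agent.GRI
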